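import Pool.Agent.helper88.RQ2.Spec

/-!
# Project RQ, row MU5: the exceptional case `n = 12`, rank `5`
-/

set_option autoImplicit false

open Set Matroid RadonMin

namespace RadonQ2

theorem MU5_aux {α : Type} (N : Matroid α) [N.Finite] (hs : Simp N) (hg : Good N) (hE : N.E.ncard = 11) (hcc : cc N = 17)
    (P : Set α) (hP : P ⊆ N.E) (hPn : P.Nonempty) (hr : rk N P + rk N (N.E \ P) ≤ 5) (hP1 : rk N P ≤ 1) : False := by
  have hfP := finite_restrict (M := N) hP
  have hB : N.E \ P ⊆ N.E := sdiff_subset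
  have hfB := finite_restrict (M := N) hB
  -- the set `P` is a point
  have h1 : P.ncard ≤ 1 := by
    have := ncard_le_one_of_rk (M := N ↾ P) (hs.restrict hP) (by
      rw [restrict_ground_eq, rk_restrict N le_rfl]
      exact hP1)
    rwa [restrict_ground_eq] at this
  have h2 : 1 ≤ rk N P := by
    obtain ⟨a, ha⟩ := hPn
    have h3 : N.Indep {a} := hs.indep_of_ncard_le (singleton_subset_iff.2 (hP ha)) (by rw [ncard_singleton]; omega)
    have h4 := rk_indep h3
    rw [ncard_singleton] at h4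
    have h5 := rk_mono N (singleton_subset_iff.2 ha)
    omega
  have h3 : (N.E \ P).ncard + P.ncard = N.E.ncard := ncard_sdiff_add_ncard_of_subset hP N.ground_finite
  have h4 := T_bound (M := N ↾ (N.E \ P)) (hs.restrict hB) (hg.restrict hB) 5
  rw [restrict_ground_eq, rk_restrict N le_rfl] at h4
  have h5 : cc (N ↾ (N.E \ P)) ≤ cc N := by
    have h6 := cc_add_le (M := N) hB hP disjoint_sdiff_left
    omega
  have h6 : Nat.choose 5 2 = 10 := by decide
  have h7 : Nat.choose (5 + 1) 3 = 20 := by decide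
  rw [h6, h7] at h4
  push_cast at h4
  have h8 : (10 : ℤ) * ((N.E \ P).ncard : ℤ) - 20 * (rk N (N.E \ P) : ℤ) ≤ (cc (N ↾ (N.E \ P)) : ℤ) := h4
  omega

theorem MU5_proof (hMSUM : MSUM_stmt) : MU5_stmt := by
  intro α M _ hs hg hc hr hn hlast
  by_contra hcon
  push Not at hcon
  -- the numbers
  have key : ∀ e ∈ M.E, Simp (M ＼ {e}) ∧ Good (M ＼ {e}) ∧ rk (M ＼ {e}) (M ＼ {e}).E = 5 ∧ (M ＼ {e}).E.ncard = 11 ∧
      10 ≤ ce M e ∧ cc (M ＼ {e}) = 17 ∧ cc M = 27 := by
    intro e he
    have hN1 : (M ＼ {e}).E = M.E \ {e} := rfl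
    have hN2 : (M ＼ {e}).E.ncard = 11 := by
      rw [hN1, ncard_sdiff_singleton_of_mem he, hn]
    have hf : ∃ f ∈ M.E, e ≠ f := by
      by_contra h1
      push Not at h1
      have h2 : M.E ⊆ {e} := fun f hf => (h1 f hf).symm
      have h3 := ncard_le_ncard h2 (finite_singleton e)
      rw [ncard_singleton] at h3
      omega
    obtain ⟨f, hf, hef⟩ := hf
    obtain ⟨C, hC, heC, -⟩ := hc.exists_common_circuit he hf hef
    have hrk : rk (M ＼ {e}) (M ＼ {e}).E = 5 := by
      rw [hN1, rk_delete M le_rfl, rk_sdiff_singleton_of_circuit hC heC, hr]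
    have h1 := U_bound (M := M ＼ {e}) (hs.delete {e}) (hg.delete {e}) 2 (by norm_num) (by rw [hrk]) 5 (by norm_num)
    have h2 : Nat.choose 5 2 = 10 := by decide
    have h3 : Nat.choose (5 + 1) 3 = 20 := by decide
    have h4 : hh (5 + 2) = 17 := by
      unfold hh corr
      decide
    rw [h2, h3, h4, hN2] at h1
    norm_num at h1
    have h5 := ce_lower hs hc he 2
    have h6 : Nat.choose (2 + 1) 2 = 3 := by decide
    rw [h6, hn, hr] at h5
    norm_num at h5
    have h7 := cc_eq_delete_add_ce M e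
    refine ⟨hs.delete {e}, hg.delete {e}, hrk, hN2, ?_, ?_, ?_⟩ <;> omega
  have hcirc : ∀ C, M.IsCircuit C → C.ncard ≤ 4 := by
    intro C hC
    have h1 := rk_circuit hC
    have h2 := rk_mono M hC.subset_ground
    have h3 : ∃ e ∈ M.E, e ∉ C := by
      by_contra h4
      push Not at h4
      have h5 := ncard_le_ncard h4 (M.ground_finite.subset hC.subset_ground)
      omega
    obtain ⟨e, he, heC⟩ := h3
    obtain ⟨k1, k2, k3, k4, -, k6, -⟩ := key e he
    have hCN : (M ＼ {e}).IsCircuit C := by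
      rw [delete_isCircuit_iff]
      exact ⟨hC, disjoint_singleton_right.2 heC⟩
    have hnc : ¬ Conn (M ＼ {e}) := by
      intro h4
      have := hlast (M ＼ {e}) k1 k2 h4 k3 k4
      omega
    unfold Conn at hnc
    push Not at hnc
    obtain ⟨A, hA, hAn, hBn, hAB⟩ := hnc
    have h5 := rk_circuit hCN
    rcases subset_or_subset_of_rk hA hAB hCN with h4 | h4
    · have h6 := rk_mono (M ＼ {e}) h4
      by_contra h7
      have h8 : rk (M ＼ {e}) ((M ＼ {e}).E \ A) ≤ 1 := by omega
      have h9 : (M ＼ {e}).E \ ((M ＼ {e}).E \ A) = A := sdiff_sdiff_cancel_left hA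
      refine MU5_aux (M ＼ {e}) k1 k2 k4 k6 ((M ＼ {e}).E \ A) sdiff_subset hBn ?_ h8
      rw [h9]
      omega
    · have h6 := rk_mono (M ＼ {e}) h4
      by_contra h7
      have h8 : rk (M ＼ {e}) A ≤ 1 := by omega
      refine MU5_aux (M ＼ {e}) k1 k2 k4 k6 A hA hAn ?_ h8
      omega
  have h1 := hMSUM α M 10 4 hcirc (fun e he => (key e he).2.2.2.2.1)
  rw [hn] at h1
  omega

end RadonQ2
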